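import Pool.Agent.H98.CE.Targets

/-!
# Numbers of the levels: continuity (row NUC) and the slope of the first level (row NU2)
-/

set_option autoImplicit false

open MeasureTheory ProbabilityTheory Filter Topology
open Pool.Agent.H98.CE

namespace Pool.Agent.H54.CEL

theorem nuc_cv (t : ℝ → ℕ → ℝ) (thr : ℕ) (ht : ∀ j, Continuous fun e => t e j) (m : ℕ) :
    ∀ s : ℕ, Continuous fun e => cv (t e) thr m s := by
  induction m with
  | zero =>
    intro s
    simp only [cv]
    exact continuous_const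
  | succ m ih =>
    intro s
    simp only [cv]
    exact continuous_finsetSum _ fun j _ => (ht j).mul (ih (s - j))

theorem nuc_cv_nonneg (t : ℕ → ℝ) (thr : ℕ) (ht : ∀ j, 0 ≤ t j) (m : ℕ) :
    ∀ s : ℕ, 0 ≤ cv t thr m s := by
  induction m with
  | zero =>
    intro s
    simp only [cv]
    split_ifs <;> norm_num
  | succ m ih =>
    intro s
    simp only [cv]
    exact Finset.sum_nonneg fun j _ => mul_nonneg (ht j) (ih (s - j))

theorem pf_NUC : T_NUC := by
  intro d η J ms l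
  induction l with
  | zero =>
    intro j
    constructor
    · simp only [tl, t0]
      split_ifs
      · exact (continuous_id.mul continuous_const).div_const _
      · exact continuous_const
    · intro _ e he
      simp only [tl, t0]
      split_ifs
      · positivity
      · exact le_rfl
  | succ l ih =>
    intro j
    constructor
    · simp only [tl, nx]
      refine continuous_id.mul (continuous_finsetSum _ fun m _ => ?_)
      refine Continuous.mul ?_ (nuc_cv _ _ (fun j => (ih j).1) _ _)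
      exact (continuous_id.mul continuous_const).pow m
    · intro hη e he
      simp only [tl, nx]
      refine mul_nonneg he (Finset.sum_nonneg fun m _ => ?_)
      exact mul_nonneg (pow_nonneg (mul_nonneg he hη) m)
        (nuc_cv_nonneg _ _ (fun j => (ih j).2 hη e he) _ _)

theorem pf_NU2 : T_NU2 := by
  intro d hd hd2
  obtain ⟨q, hq⟩ : ∃ q : ℝ, q = (2 - d) / 12 := ⟨_, rfl⟩
  have hq0 : 0 < q := by rw [hq]; linarith
  have hq1 : q < 1 / 6 := by rw [hq]; linarith
  obtain ⟨U₀, hU₀⟩ : ∃ U₀ : ℕ, 4 / q ≤ U₀ := exists_nat_ge _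
  have hU0 : (0 : ℝ) < U₀ := lt_of_lt_of_le (by positivity) hU₀
  obtain ⟨η, hη⟩ : ∃ η : ℝ, η = q / (d * (U₀ + 4)) := ⟨_, rfl⟩
  have hη0 : 0 < η := by rw [hη]; positivity
  obtain ⟨x, hx⟩ : ∃ x : ℝ, x = Real.exp (-d * η) := ⟨_, rfl⟩
  have hx0 : 0 < x := by rw [hx]; exact Real.exp_pos _
  have hx1 : x < 1 := by
    rw [hx, Real.exp_lt_one_iff]
    have := mul_pos hd hη0
    linarith
  have hxd : 1 - x ≤ d * η := by
    have h := Real.add_one_le_exp (-d * η)
    rw [hx]
    linarith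
  have hxU : 1 - q ≤ x ^ (U₀ + 4) := by
    rw [hx, ← Real.exp_nat_mul]
    have h : ((U₀ + 4 : ℕ) : ℝ) * (-d * η) = -q := by
      rw [hη]
      push_cast
      field_simp
    rw [h]
    linarith [Real.add_one_le_exp (-q)]
  obtain ⟨n, hn⟩ := exists_pow_lt_of_lt_one hq0 hx1
  refine ⟨η, hη0, U₀ + n, ?_⟩
  -- the terms
  have hterm : ∀ U : ℕ, Real.exp (-d * (U + 4) * η) = x ^ (U + 4) := by
    intro U
    rw [hx, ← Real.exp_nat_mul]
    congr 1
    push_cast
    ring
  have hlow : (1 - q) * (x ^ (U₀ + 4) * ∑ i ∈ Finset.range n, x ^ i) ≤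
      ∑ U ∈ Finset.range (U₀ + n), (U : ℝ) * (Real.exp (-d * (U + 4) * η) / (U + 4)) := by
    rw [Finset.sum_range_add]
    have h1 : 0 ≤ ∑ U ∈ Finset.range U₀,
        (U : ℝ) * (Real.exp (-d * (U + 4) * η) / (U + 4)) :=
      Finset.sum_nonneg fun U _ => by positivity
    have h2 : (1 - q) * (x ^ (U₀ + 4) * ∑ i ∈ Finset.range n, x ^ i) ≤
        ∑ i ∈ Finset.range n, ((U₀ + i : ℕ) : ℝ) *
          (Real.exp (-d * (((U₀ + i : ℕ) : ℝ) + 4) * η) / (((U₀ + i : ℕ) : ℝ) + 4)) := by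
      rw [Finset.mul_sum, Finset.mul_sum]
      refine Finset.sum_le_sum fun i _ => ?_
      have hx' : x ^ (U₀ + i + 4) = x ^ (U₀ + 4) * x ^ i := by
        rw [← pow_add]
        congr 1
        ring
      rw [hterm, hx']
      have h3 : 1 - q ≤ ((U₀ + i : ℕ) : ℝ) / (((U₀ + i : ℕ) : ℝ) + 4) := by
        rw [le_div_iff₀ (by positivity)]
        have h4 : 4 ≤ U₀ * q := by
          rw [div_le_iff₀ hq0] at hU₀
          exact hU₀
        push_cast
        have h5 : (0 : ℝ) ≤ i * q := by positivity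
        nlinarith
      have h6 : 0 ≤ x ^ (U₀ + 4) * x ^ i := by positivity
      calc (1 - q) * (x ^ (U₀ + 4) * x ^ i)
          ≤ ((U₀ + i : ℕ) : ℝ) / (((U₀ + i : ℕ) : ℝ) + 4) * (x ^ (U₀ + 4) * x ^ i) :=
            mul_le_mul_of_nonneg_right h3 h6
        _ = _ := by ring
    linarith
  have hgeom : (∑ i ∈ Finset.range n, x ^ i) * (1 - x) = 1 - x ^ n := by
    have h := geom_sum_mul_neg x n
    exact h
  have hS : 1 - q ≤ (∑ i ∈ Finset.range n, x ^ i) * (d * η) := by
    have h1 : 0 ≤ ∑ i ∈ Finset.range n, x ^ i := Finset.sum_nonneg fun i _ => by positivity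
    have h2 := mul_le_mul_of_nonneg_left hxd h1
    rw [hgeom] at h2
    linarith
  obtain ⟨σ, hσ⟩ : ∃ σ : ℝ, σ = ∑ i ∈ Finset.range n, x ^ i := ⟨_, rfl⟩
  rw [← hσ] at hS hlow
  have hσ0 : 0 ≤ σ := by
    rw [hσ]
    exact Finset.sum_nonneg fun i _ => by positivity
  have h1q : 0 < 1 - q := by linarith
  have hA : (1 - q) ^ 3 ≤ d * (η * ((1 - q) * (x ^ (U₀ + 4) * σ))) := by
    have h1 : (1 - q) * (1 - q) ≤ x ^ (U₀ + 4) * (σ * (d * η)) :=
      mul_le_mul hxU hS h1q.le (by positivity)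
    calc (1 - q) ^ 3 = (1 - q) * ((1 - q) * (1 - q)) := by ring
      _ ≤ (1 - q) * (x ^ (U₀ + 4) * (σ * (d * η))) := mul_le_mul_of_nonneg_left h1 h1q.le
      _ = _ := by ring
  have hB : d / 2 < (1 - q) ^ 3 := by
    have h1 : 1 - 3 * q ≤ (1 - q) ^ 3 := by nlinarith [mul_pos hq0 hq0]
    have h2 : 1 - 3 * q = (2 + d) / 4 := by rw [hq]; ring
    linarith
  have hC := mul_le_mul_of_nonneg_left hlow (mul_pos hd hη0).le
  have hD : d / 2 < d * (η * ∑ U ∈ Finset.range (U₀ + n),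
      (U : ℝ) * (Real.exp (-d * (U + 4) * η) / (U + 4))) := by
    calc d / 2 < (1 - q) ^ 3 := hB
      _ ≤ d * (η * ((1 - q) * (x ^ (U₀ + 4) * σ))) := hA
      _ = d * η * ((1 - q) * (x ^ (U₀ + 4) * σ)) := by ring
      _ ≤ d * η * ∑ U ∈ Finset.range (U₀ + n),
          (U : ℝ) * (Real.exp (-d * (U + 4) * η) / (U + 4)) := hC
      _ = _ := by ring
  have hE : d * (1 / 2) < d * (η * ∑ U ∈ Finset.range (U₀ + n),
      (U : ℝ) * (Real.exp (-d * (U + 4) * η) / (U + 4))) := by linarith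
  exact lt_of_mul_lt_mul_left hE hd.le

end Pool.Agent.H54.CEL
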